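import Pool.Agent.Lib.P74fcff.Comp
import Pool.Agent.Lib.P74fcff.Statement

set_option autoImplicit false

open scoped Matrix
open Pool.Agent.Lib.P74fcff.Statement

universe u

namespace Pool.Agent.Results.MP_74fcff_an.CompressionRankOne

/-- Let `A` be an `n × n` matrix and let `B = J* A J` be a compression of `A` to a subspace of
dimension `m ≥ 2` (`J` is an isometry from `ℂ^m` to `ℂ^n`) with `W(A) ⊆ W(B)`. If some Hermitian
matrix `ζB + (ζB)* - μI` with `ζ ≠ 0` complex and `μ` real has rank at most one, then `A` has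
property (D). -/
theorem result {n m : ℕ} (hm : 2 ≤ m) (A : Matrix (Fin n) (Fin n) ℂ)
    (J : Matrix (Fin n) (Fin m) ℂ) (hJ : Jᴴ * J = 1) (B : Matrix (Fin m) (Fin m) ℂ)
    (hAB : B = Jᴴ * A * J) (hW : matRange A ⊆ matRange B)
    (hB : ∃ ζ : ℂ, ζ ≠ 0 ∧ ∃ μ : ℝ, (ζ • B + (ζ • B)ᴴ - (μ : ℂ) • 1).rank ≤ 1) :
    PropertyD.{u} A := by
  subst hAB
  rw [Pool.Agent.Lib.P74fcff.propertyD_iff]
  rw [Pool.Agent.Lib.P74fcff.matRange_eq, Pool.Agent.Lib.P74fcff.matRange_eq] at hW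
  exact Pool.Agent.Lib.P74fcff.propertyV_of_compression.{u} hm hJ hW hB

end Pool.Agent.Results.MP_74fcff_an.CompressionRankOne
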