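import Pool.Agent.Lib.P74fcff.Nec6
import Pool.Agent.Lib.P74fcff.Statement

set_option autoImplicit false

open scoped Matrix
open Pool.Agent.Lib.P74fcff.Statement

universe u

namespace Pool.Agent.Results.MP_74fcff_an.ThreeByThree

/-- A `3 × 3` complex matrix `A` has property (D) if and only if `A` and `A*` have a common
eigenvector, or some Hermitian matrix `ζA + (ζA)* - μI` with `ζ ≠ 0` complex and `μ` real has rank at
most one. -/
theorem result (A : Matrix (Fin 3) (Fin 3) ℂ) :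
    PropertyD.{u} A ↔
      (∃ v : Fin 3 → ℂ, v ≠ 0 ∧ ∃ l : ℂ, A *ᵥ v = l • v ∧ Aᴴ *ᵥ v = star l • v) ∨
      (∃ ζ : ℂ, ζ ≠ 0 ∧ ∃ μ : ℝ, (ζ • A + (ζ • A)ᴴ - (μ : ℂ) • 1).rank ≤ 1) :=
  (Pool.Agent.Lib.P74fcff.propertyD_iff.{u} A).trans
    (Pool.Agent.Lib.P74fcff.classification.{u} A)

end Pool.Agent.Results.MP_74fcff_an.ThreeByThree
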